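import Pool.Agent.TH116.K3.Basic

/-!
# K3 surfaces of minimal degree are enough
-/

universe u

namespace Pool.Agent.Results.MP_9207e0_ag.MinimalDegree

open Pool.Agent.TH116.K3

/-- K3 surfaces with the property CH0: the group of zero-cycles of degree zero, tensored with the rationals, is zero; it is invariant under isogeny
(Huybrechts). -/
structure SurfacesCH0 extends Surfaces.{u} where
  /-- the group of zero-cycles of degree zero, tensored with the rationals, is zero -/
  CH0 : Obj → Prop
  CH0_isog : ∀ X Y, Isog X Y → (CH0 X ↔ CH0 Y)

variable (T : SurfacesCH0.{u})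

/-- The property holds for all K3 surfaces if and only if it holds for those of minimal degree; and
the minimal degrees `2d` have `d` squarefree. -/
theorem result :
    ((∀ X, T.CH0 X) ↔ ∀ X d, MinimalDegree T.toSurfaces X d → T.CH0 X) ∧
      ∀ X d, MinimalDegree T.toSurfaces X d → Squarefree d :=
  ⟨minimalDegree_suffices T.toSurfaces T.CH0 T.CH0_isog, fun _ _ h => h.squarefree⟩

end Pool.Agent.Results.MP_9207e0_ag.MinimalDegree
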